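import Mathlib
import Pool.Agent.KS6_91.MB.Core

/-!
# MP_810de6_an, Q1: which Banach spaces embed into a Banach space with an extended M-basis

`HasExtMBasis`, `InjectsIntoC0`, `EmbedsInExtMBasis` and `L1` are defined in
`Pool.Agent.KS6_91.MB.Core`.
-/
set_option autoImplicit false

open scoped ENNReal Cardinal

universe u

namespace Pool.Agent.Results.MP_810de6_an.WhichSubspaces

open Pool.Agent.KS6_91.MB

/-- the direct sum `X ⊕ l₁(Γ)` has an extended M-basis -/
def SumHasExtMBasis (𝕜 : Type) [RCLike 𝕜] (X : Type u) [NormedAddCommGroup X] [NormedSpace 𝕜 X]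
    (Γ : Type u) : Prop := HasExtMBasis 𝕜 (X × L1 𝕜 Γ)

/-- countably many continuous functionals separate the points of `X` -/
def CountablySeparated (𝕜 : Type) [RCLike 𝕜] (X : Type u) [NormedAddCommGroup X]
    [NormedSpace 𝕜 X] : Prop :=
  ∃ f : ℕ → (X →L[𝕜] 𝕜), ∀ x, (∀ n, f n x = 0) → x = 0

/-- the Banach space of bounded scalar sequences -/
abbrev LInf (𝕜 : Type) [RCLike 𝕜] : Type := lp (fun _ : ℕ => 𝕜) ∞

/-- Scalars are real or complex.

(1) Let `X` be a Banach space, `D` a dense subset of `X` and `Γ` an infinite set with at least as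
many elements as `D`. The following are equivalent: `X` injects into some `c₀(I)`; the direct sum
`X ⊕ l₁(Γ)` has an extended M-basis; `X` is isomorphic to a closed subspace of a Banach space with
an extended M-basis. This is the case if countably many continuous functionals separate the points
of `X`.

(2) So `l_∞ ⊕ l₁(Γ)` has an extended M-basis for every set `Γ` with at least continuum many
elements, and `l_∞` is isomorphic to a closed subspace of it. -/
theorem result (𝕜 : Type) [RCLike 𝕜] :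
    (∀ (X : Type u) [NormedAddCommGroup X] [NormedSpace 𝕜 X] [CompleteSpace X] (D : Set X)
      (Γ : Type u), Infinite Γ → Dense D → #D ≤ #Γ →
        (InjectsIntoC0 𝕜 X ↔ SumHasExtMBasis 𝕜 X Γ) ∧
        (InjectsIntoC0 𝕜 X ↔ EmbedsInExtMBasis 𝕜 X) ∧
        (CountablySeparated 𝕜 X → InjectsIntoC0 𝕜 X)) ∧
    (∀ Γ : Type, 𝔠 ≤ #Γ → SumHasExtMBasis 𝕜 (LInf 𝕜) Γ) ∧ EmbedsInExtMBasis 𝕜 (LInf 𝕜) := by
  have hL : InjectsIntoC0 𝕜 (LInf 𝕜) := by
    refine injects_of_countable (fun n => lp.evalCLM 𝕜 (fun _ : ℕ => 𝕜) ∞ n) ?_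
    intro x hx
    apply lp.ext
    funext n
    exact hx n
  have hS : ∀ Γ : Type, 𝔠 ≤ #Γ → SumHasExtMBasis 𝕜 (LInf 𝕜) Γ := by
    intro Γ hΓ
    have hinf : Infinite Γ := Cardinal.infinite_iff.2 (Cardinal.aleph0_le_continuum.trans hΓ)
    refine hasExtMBasis_of hL Set.univ dense_univ Γ ?_
    rw [Cardinal.mk_univ]
    refine le_trans ?_ hΓ
    have h1 : #(lp (fun _ : ℕ => 𝕜) ∞) ≤ #(ℕ → 𝕜) :=
      Cardinal.mk_le_of_injective (f := fun x : lp (fun _ : ℕ => 𝕜) ∞ => (x : ℕ → 𝕜))
        (fun x y h => lp.ext h)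
    have h2 : #𝕜 ≤ 𝔠 := by
      have h3 : Function.Injective fun z : 𝕜 => (RCLike.re z, RCLike.im z) := by
        intro z w h
        exact RCLike.ext (congrArg Prod.fst h) (congrArg Prod.snd h)
      have h4 := Cardinal.mk_le_of_injective h3
      rw [Cardinal.mk_prod, Cardinal.lift_id, Cardinal.mk_real,
        Cardinal.continuum_mul_self] at h4
      exact h4
    refine h1.trans ?_
    rw [← Cardinal.power_def, Cardinal.mk_nat]
    calc #𝕜 ^ ℵ₀ ≤ 𝔠 ^ ℵ₀ := Cardinal.power_le_power_right h2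
      _ = 𝔠 := Cardinal.continuum_power_aleph0
  refine ⟨?_, hS, ?_⟩
  · intro X _ _ _ D Γ hinf hD hΓ
    have h12 : InjectsIntoC0 𝕜 X → SumHasExtMBasis 𝕜 X Γ := fun h =>
      hasExtMBasis_of h D hD Γ hΓ
    have h23 : SumHasExtMBasis 𝕜 X Γ → EmbedsInExtMBasis 𝕜 X := fun h => embeds_of h
    refine ⟨⟨h12, fun h => injects_of_embeds (h23 h)⟩,
      ⟨fun h => h23 (h12 h), injects_of_embeds⟩, ?_⟩
    rintro ⟨f, hf⟩
    exact injects_of_countable f hf
  · exact embeds_of (hS ℝ (by rw [Cardinal.mk_real]))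

end Pool.Agent.Results.MP_810de6_an.WhichSubspaces
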